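import Pool.Agent.Helper46_PathVar.Down
import Pool.Agent.Helper51_Max.Graph

/-!
# The variation of the centred maximal function on paths: constant `3 - 2 / n`
-/

set_option autoImplicit false

open Finset SimpleGraph

namespace Pool.Agent.Helper46_PathVar

open Pool.Agent.Helper51_Max

variable {N : ℕ} {g M : ℕ → ℝ}

/-- the up variation -/
noncomputable def uvar (N : ℕ) (g : ℕ → ℝ) : ℝ :=
  ∑ v ∈ range N, (g (v + 1) - min (g (v + 1)) (g v))

lemma dvar_add_uvar (N : ℕ) (g : ℕ → ℝ) :
    ∑ v ∈ range N, |g v - g (v + 1)| = dvar N g + uvar N g := by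
  unfold dvar uvar
  rw [← sum_add_distrib]
  refine sum_congr rfl fun v _ => ?_
  rcases le_total (g (v + 1)) (g v) with h | h
  · rw [min_eq_left h, abs_of_nonneg (by linarith)]; ring
  · rw [min_eq_right h, abs_sub_comm, abs_of_nonneg (by linarith)]; ring

lemma sum_reflect {v : ℕ} (hv : v ≤ N) (g : ℕ → ℝ) (r : ℕ) :
    ∑ i ∈ I N v r, g (N - i) = ∑ i ∈ I N (N - v) r, g i := by
  refine sum_nbij' (fun i => N - i) (fun i => N - i) ?_ ?_ ?_ ?_ ?_
  · intro i hi
    simp only [I, mem_Icc] at hi ⊢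
    omega
  · intro i hi
    simp only [I, mem_Icc] at hi ⊢
    omega
  · intro i hi
    simp only [I, mem_Icc] at hi
    omega
  · intro i hi
    simp only [I, mem_Icc] at hi
    omega
  · intro i _
    rfl

lemma card_reflect {v : ℕ} (hv : v ≤ N) (r : ℕ) :
    (I N (N - v) r).card = (I N v r).card := by
  rw [card_I, card_I]
  omega

lemma isMax_reflect (h : IsMax N g M) : IsMax N (fun i => g (N - i)) (fun i => M (N - i)) := by
  refine ⟨fun i => h.nonneg _, ?_, ?_⟩
  · intro v hv r
    rw [sum_reflect hv, ← card_reflect hv]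
    exact h.le (N - v) (by omega) r
  · intro v hv
    obtain ⟨r, hr⟩ := h.attained (N - v) (by omega)
    refine ⟨r, ?_⟩
    rw [sum_reflect hv, ← card_reflect hv]
    exact hr

lemma dvar_reflect (N : ℕ) (g : ℕ → ℝ) : dvar N (fun i => g (N - i)) = uvar N g := by
  unfold dvar uvar
  rw [← sum_range_reflect]
  refine sum_congr rfl fun v hv => ?_
  rw [mem_range] at hv
  have h1 : N - (N - 1 - v) = v + 1 := by omega
  have h2 : N - (N - 1 - v + 1) = v := by omega
  simp only [h1, h2]
  rw [min_comm]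

/-- The variation of the maximal function on the path `{0, …, N}`. -/
theorem var_le (h : IsMax N g M) :
    ∑ v ∈ range N, |M v - M (v + 1)| ≤
      (1 + 2 * ((N : ℝ) / (N + 1))) * ∑ v ∈ range N, |g v - g (v + 1)| := by
  have h1 := dvar_le h
  have h2 := dvar_le (isMax_reflect h)
  rw [dvar_reflect, dvar_reflect] at h2
  rw [dvar_add_uvar, dvar_add_uvar]
  linarith [mul_add (1 + 2 * ((N : ℝ) / (N + 1))) (dvar N g) (uvar N g)]

/-- **Main theorem.** -/
theorem main (n : ℕ) (hn : 1 ≤ n) (f : Fin n → ℝ) :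
    variation (pathGraph n) (maximal (pathGraph n) f) ≤
      (3 - 2 / (n : ℝ)) * variation (pathGraph n) f := by
  obtain ⟨N, rfl⟩ : ∃ N, n = N + 1 := ⟨n - 1, by omega⟩
  set g : ℕ → ℝ := ext (fun v => |f v|) with hg
  set M : ℕ → ℝ := ext (fun v => maximal (pathGraph (N + 1)) f v) with hM
  have hcard : ∀ v r, (0 : ℝ) < (Helper51_Max.ball (pathGraph (N + 1)) v r).card := fun v r => by
    exact_mod_cast ball_card_pos (pathGraph (N + 1)) v r
  have hsum : ∀ v : Fin (N + 1), ∀ r, ∑ i ∈ I N v.val r, g i =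
      ∑ w ∈ Helper51_Max.ball (pathGraph (N + 1)) v r, |f w| := by
    intro v r
    rw [hg, ← sum_ball]
  have hmax : IsMax N g M := by
    refine ⟨?_, ?_, ?_⟩
    · intro i
      rw [hg]; unfold Helper51_Max.ext
      split_ifs with h
      · exact abs_nonneg _
      · exact le_rfl
    · intro v hv r
      have h0 := hsum ⟨v, by omega⟩ r
      have h1 := avg_le_maximal (pathGraph (N + 1)) f ⟨v, by omega⟩ r
      have h2 : M v = maximal (pathGraph (N + 1)) f ⟨v, by omega⟩ := by
        rw [hM]; unfold Helper51_Max.ext; rw [dif_pos (by omega)]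
      rw [h0, h2, ← card_ball ⟨v, by omega⟩ r]
      rwa [div_le_iff₀ (hcard _ _)] at h1
    · intro v hv
      obtain ⟨r, hr⟩ := exists_maximal (pathGraph (N + 1)) f ⟨v, by omega⟩
      refine ⟨r, ?_⟩
      have h0 := hsum ⟨v, by omega⟩ r
      have h2 : M v = maximal (pathGraph (N + 1)) f ⟨v, by omega⟩ := by
        rw [hM]; unfold Helper51_Max.ext; rw [dif_pos (by omega)]
      rw [h0, h2, ← card_ball ⟨v, by omega⟩ r, ← hr]
      have := (hcard ⟨v, by omega⟩ r).ne'
      field_simp
  have h1 := var_le hmax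
  have h2 : ∑ v ∈ range N, |M v - M (v + 1)| =
      variation (pathGraph (N + 1)) (maximal (pathGraph (N + 1)) f) := by
    rw [variation_path, range_eq_Ico]
  have h3 : ∑ v ∈ range N, |g v - g (v + 1)| ≤ variation (pathGraph (N + 1)) f := by
    rw [variation_path, range_eq_Ico]
    refine sum_le_sum fun v hv => ?_
    rw [mem_Ico] at hv
    rw [hg]; unfold Helper51_Max.ext
    rw [dif_pos (by omega), dif_pos (by omega), dif_pos (by omega), dif_pos (by omega)]
    exact abs_abs_sub_abs_le_abs_sub _ _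
  rw [h2] at h1
  have h4 : (3 - 2 / (((N + 1 : ℕ)) : ℝ)) = 1 + 2 * ((N : ℝ) / (N + 1)) := by
    have h5 : (0 : ℝ) < (N : ℝ) + 1 := by positivity
    push_cast
    field_simp
    ring
  rw [h4]
  have h5 : (0 : ℝ) ≤ 1 + 2 * ((N : ℝ) / (N + 1)) := by positivity
  exact h1.trans (mul_le_mul_of_nonneg_left h3 h5)

end Pool.Agent.Helper46_PathVar
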