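import Pool.Agent.Helper51_Max.Core

/-!
# Maximal functions over balls with at most `ρ` elements, and the sites lost by a ball
-/

set_option autoImplicit false

open Finset

namespace Pool.Agent.Helper46_PathVar

open Pool.Agent.Helper51_Max

/-- `K` is the maximal function over balls with at most `ρ` elements; `K v` is attained at the
radius `R v`. -/
structure IsCap (N : ℕ) (g : ℕ → ℝ) (ρ : ℕ) (K : ℕ → ℝ) (R : ℕ → ℕ) : Prop where
  le : ∀ v ≤ N, ∀ r, (I N v r).card ≤ ρ → ∑ i ∈ I N v r, g i ≤ K v * ((I N v r).card : ℝ)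
  card_le : ∀ v ≤ N, (I N v (R v)).card ≤ ρ
  attained : ∀ v ≤ N, K v * ((I N v (R v)).card : ℝ) = ∑ i ∈ I N v (R v), g i

lemma I_min (N v r : ℕ) (hv : v ≤ N) : I N v (min r N) = I N v r := by
  ext i; simp only [I, mem_Icc]; omega

lemma I_zero (N v : ℕ) (hv : v ≤ N) : I N v 0 = {v} := by
  ext i; simp only [I, mem_Icc, mem_singleton]; omega

lemma exists_cap (N : ℕ) (g : ℕ → ℝ) (ρ : ℕ) (hρ : 1 ≤ ρ) : ∃ K R, IsCap N g ρ K R := by
  classical
  have key : ∀ v : ℕ, ∃ r : ℕ, v ≤ N → ((I N v r).card ≤ ρ ∧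
      ∀ r', (I N v r').card ≤ ρ → (∑ i ∈ I N v r', g i) / ((I N v r').card : ℝ) ≤
        (∑ i ∈ I N v r, g i) / ((I N v r).card : ℝ)) := by
    intro v
    by_cases hv : v ≤ N
    · have hne : ((range (N + 1)).filter (fun r => (I N v r).card ≤ ρ)).Nonempty := by
        refine ⟨0, ?_⟩
        rw [mem_filter, mem_range, I_zero N v hv, card_singleton]
        exact ⟨by omega, hρ⟩
      obtain ⟨r, hr, hmax⟩ := exists_max_image
        ((range (N + 1)).filter (fun r => (I N v r).card ≤ ρ))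
        (fun r => (∑ i ∈ I N v r, g i) / ((I N v r).card : ℝ)) hne
      refine ⟨r, fun _ => ⟨(mem_filter.mp hr).2, fun r' hr' => ?_⟩⟩
      have h1 : min r' N ∈ (range (N + 1)).filter (fun r => (I N v r).card ≤ ρ) := by
        rw [mem_filter, mem_range, I_min N v r' hv]
        exact ⟨by omega, hr'⟩
      have h2 := hmax _ h1
      simpa only [I_min N v r' hv] using h2
    · exact ⟨0, fun h => absurd h hv⟩
  choose R hR using key
  refine ⟨fun v => (∑ i ∈ I N v (R v), g i) / ((I N v (R v)).card : ℝ), R, ?_, ?_, ?_⟩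
  · intro v hv r hr
    have h1 := (hR v hv).2 r hr
    have h2 : (0 : ℝ) < (I N v r).card := by exact_mod_cast card_I_pos r hv
    rwa [div_le_iff₀ h2] at h1
  · intro v hv
    exact (hR v hv).1
  · intro v hv
    have h2 : (0 : ℝ) < (I N v (R v)).card := by exact_mod_cast card_I_pos (R v) hv
    field_simp

variable {N : ℕ} {g M K : ℕ → ℝ} {R : ℕ → ℕ} {ρ : ℕ}

lemma IsCap.le_max (hK : IsCap N g ρ K R) (h : IsMax N g M) {v : ℕ} (hv : v ≤ N) :
    K v ≤ M v := by
  have h1 := hK.attained v hv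
  have h2 := h.le v hv (R v)
  have h3 : (0 : ℝ) < (I N v (R v)).card := by exact_mod_cast card_I_pos (R v) hv
  rw [← h1] at h2
  exact le_of_mul_le_mul_right h2 h3

lemma IsMax.g_le (h : IsMax N g M) {v : ℕ} (hv : v ≤ N) : g v ≤ M v := by
  have h1 := h.le v hv 0
  rw [I_zero N v hv] at h1
  simpa using h1

/-- sites lost when the ball moves to the right and shrinks -/
def lostR (N v r : ℕ) : Finset ℕ := I N v r \ I N (v + 1) (r - 1)

/-- sites lost when the ball moves to the left and shrinks -/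
def lostL (N v r : ℕ) : Finset ℕ := I N v r \ I N (v - 1) (r - 1)

lemma subR {v r : ℕ} (hr : 1 ≤ r) : I N (v + 1) (r - 1) ⊆ I N v r := by
  intro i; simp only [I, mem_Icc]; omega

lemma subL {v r : ℕ} (hv : 1 ≤ v) (hr : 1 ≤ r) : I N (v - 1) (r - 1) ⊆ I N v r := by
  intro i; simp only [I, mem_Icc]; omega

lemma card_lostR {v r : ℕ} (hr : 1 ≤ r) : (lostR N v r).card ≤ 2 := by
  have h : lostR N v r ⊆ Ico (v - r) (v - r + 2) := by
    intro i
    simp only [lostR, I, mem_sdiff, mem_Icc, mem_Ico, not_and_or, not_le]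
    omega
  calc (lostR N v r).card ≤ (Ico (v - r) (v - r + 2)).card := card_le_card h
    _ = 2 := by simp

lemma card_lostL {v r : ℕ} (hv : 1 ≤ v) (hr : 1 ≤ r) : (lostL N v r).card ≤ 2 := by
  have h : lostL N v r ⊆ Ico (min (v + r) N - 1) (min (v + r) N + 1) := by
    intro i
    simp only [lostL, I, mem_sdiff, mem_Icc, mem_Ico, not_and_or, not_le]
    omega
  calc (lostL N v r).card ≤ (Ico (min (v + r) N - 1) (min (v + r) N + 1)).card := card_le_card h
    _ ≤ 2 := by simp only [Nat.card_Ico]; omega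

/-- abstract form of the lost-site estimate -/
lemma lost_aux {A B : Finset ℕ} (hBA : B ⊆ A) (hcard : (A \ B).card ≤ 2) {x lam : ℝ}
    (hA : x * (A.card : ℝ) = ∑ i ∈ A, g i) (hB : ∑ i ∈ B, g i ≤ lam * (B.card : ℝ))
    (hx : lam < x) (hApos : 0 < A.card) :
    ∃ p ∈ A \ B, (A.card : ℝ) * (x - lam) ≤ 2 * (g p - lam) := by
  have h1 : ∑ i ∈ A \ B, g i + ∑ i ∈ B, g i = ∑ i ∈ A, g i := sum_sdiff hBA
  have h2 : (A \ B).card + B.card = A.card := by
    rw [card_sdiff_add_card, union_eq_left.mpr hBA]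
  have h2' : ((A \ B).card : ℝ) + B.card = A.card := by exact_mod_cast h2
  have hcardA : (0 : ℝ) < A.card := by exact_mod_cast hApos
  have h3 : (A.card : ℝ) * (x - lam) ≤ ∑ i ∈ A \ B, (g i - lam) := by
    rw [sum_sub_distrib, sum_const, nsmul_eq_mul]
    have h9 : (A.card : ℝ) * lam = ((A \ B).card : ℝ) * lam + (B.card : ℝ) * lam := by
      rw [← h2']; ring
    linarith [mul_comm x (A.card : ℝ), mul_comm lam (B.card : ℝ), mul_sub (A.card : ℝ) x lam]
  have h4 : 0 < (A.card : ℝ) * (x - lam) := mul_pos hcardA (by linarith)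
  have hne : (A \ B).Nonempty := by
    rw [nonempty_iff_ne_empty]
    intro h5
    rw [h5, sum_empty] at h3
    linarith
  obtain ⟨p, hp, hmax⟩ := exists_max_image (A \ B) g hne
  refine ⟨p, hp, ?_⟩
  have h5 : ∑ i ∈ A \ B, (g i - lam) ≤ ((A \ B).card : ℝ) * (g p - lam) := by
    rw [← nsmul_eq_mul, ← sum_const]
    exact sum_le_sum fun i hi => by linarith [hmax i hi]
  have h6 : 0 < g p - lam := by
    by_contra hcon
    push Not at hcon
    have h7 : ((A \ B).card : ℝ) * (g p - lam) ≤ 0 :=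
      mul_nonpos_of_nonneg_of_nonpos (by positivity) hcon
    linarith
  have h7 : ((A \ B).card : ℝ) ≤ 2 := by exact_mod_cast hcard
  have h8 : ((A \ B).card : ℝ) * (g p - lam) ≤ 2 * (g p - lam) :=
    mul_le_mul_of_nonneg_right h7 h6.le
  linarith

lemma IsCap.radius_pos (hK : IsCap N g ρ K R) {v : ℕ} (hv : v ≤ N) (hg : g v < K v) :
    1 ≤ R v := by
  by_contra hcon
  have h0 : R v = 0 := by omega
  have h1 := hK.attained v hv
  rw [h0, I_zero N v hv] at h1
  simp only [card_singleton, sum_singleton, Nat.cast_one, mul_one] at h1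
  linarith

lemma IsCap.lostR (hK : IsCap N g ρ K R) {v : ℕ} (hv : v + 1 ≤ N) {lam : ℝ} (hg : g v ≤ lam)
    (h1 : K (v + 1) ≤ lam) (h2 : lam < K v) :
    ∃ p ∈ lostR N v (R v), ((I N v (R v)).card : ℝ) * (K v - lam) ≤ 2 * (g p - lam) := by
  have hvN : v ≤ N := by omega
  have hr := hK.radius_pos hvN (lt_of_le_of_lt hg h2)
  have hsub := subR (N := N) (v := v) hr
  have hcard := card_le_card hsub
  refine lost_aux hsub (card_lostR hr) (hK.attained v hvN) ?_ h2 (card_I_pos _ hvN)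
  have h3 := hK.le (v + 1) hv (R v - 1) (hcard.trans (hK.card_le v hvN))
  refine h3.trans ?_
  exact mul_le_mul_of_nonneg_right h1 (by positivity)

lemma IsCap.lostL (hK : IsCap N g ρ K R) {v : ℕ} (hv : 1 ≤ v) (hvN : v ≤ N) {lam : ℝ}
    (hg : g v ≤ lam) (h1 : K (v - 1) ≤ lam) (h2 : lam < K v) :
    ∃ p ∈ lostL N v (R v), ((I N v (R v)).card : ℝ) * (K v - lam) ≤ 2 * (g p - lam) := by
  have hr := hK.radius_pos hvN (lt_of_le_of_lt hg h2)
  have hsub := subL (N := N) (v := v) hv hr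
  have hcard := card_le_card hsub
  refine lost_aux hsub (card_lostL hv hr) (hK.attained v hvN) ?_ h2 (card_I_pos _ hvN)
  have h3 := hK.le (v - 1) (by omega) (R v - 1) (hcard.trans (hK.card_le v hvN))
  refine h3.trans ?_
  exact mul_le_mul_of_nonneg_right h1 (by positivity)

end Pool.Agent.Helper46_PathVar
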