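import Pool.Agent.Helper46_PathVar.Gaps

/-!
# The down variation of the maximal function: counting over the levels
-/

set_option autoImplicit false

open Finset

namespace Pool.Agent.Helper46_PathVar

open Pool.Agent.Helper51_Max

variable {N : ℕ} {g M : ℕ → ℝ} {lam : ℝ} {a b : ℕ}

/-- the weight of the cap `ρ` -/
noncomputable def wt (N ρ : ℕ) : ℝ := if ρ ≤ N then 1 / ((ρ : ℝ) * (ρ + 1)) else 1 / ((N : ℝ) + 1)

lemma wt_nonneg (N ρ : ℕ) : 0 ≤ wt N ρ := by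
  unfold wt; split_ifs <;> positivity

/-- `∑_{ρ = m}^{N + 1} wt ρ = 1 / m` -/
lemma sum_wt (N m : ℕ) (hm : 1 ≤ m) (hmN : m ≤ N + 1) :
    ∑ ρ ∈ Icc m (N + 1), wt N ρ = 1 / (m : ℝ) := by
  obtain ⟨d, hd⟩ : ∃ d, m + d = N + 1 := ⟨N + 1 - m, by omega⟩
  induction d generalizing m with
  | zero =>
    have h1 : m = N + 1 := by omega
    subst h1
    rw [Icc_self, sum_singleton]
    unfold wt
    rw [if_neg (by omega)]
    push_cast
    rfl
  | succ d ih =>
    rw [← add_sum_Ioc_eq_sum_Icc (by omega)]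
    have h2 : Ioc m (N + 1) = Icc (m + 1) (N + 1) := by
      ext i; simp only [mem_Ioc, mem_Icc]; omega
    rw [h2, ih (m + 1) (by omega) (by omega) (by omega)]
    unfold wt
    rw [if_pos (by omega)]
    have h3 : (0 : ℝ) < m := by exact_mod_cast hm
    push_cast
    field_simp
    ring

/-- the data of all caps -/
structure Caps (N : ℕ) (g : ℕ → ℝ) where
  K : ℕ → ℕ → ℝ
  R : ℕ → ℕ → ℕ
  cap : ∀ ρ, 1 ≤ ρ → IsCap N g ρ (K ρ) (R ρ)

lemma exists_caps (N : ℕ) (g : ℕ → ℝ) : Nonempty (Caps N g) := by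
  have h : ∀ ρ : ℕ, ∃ K R, 1 ≤ ρ → IsCap N g ρ K R := by
    intro ρ
    by_cases hρ : 1 ≤ ρ
    · obtain ⟨K, R, h⟩ := exists_cap N g ρ hρ
      exact ⟨K, R, fun _ => h⟩
    · exact ⟨fun _ => 0, fun _ => 0, fun h => absurd h hρ⟩
  choose K R hKR using h
  exact ⟨⟨K, R, hKR⟩⟩

/-- the levels at which the edge `x` is good for the cap `ρ` -/
def good (N : ℕ) (g K : ℕ → ℝ) (R : ℕ → ℕ) (ρ x : ℕ) : Set ℝ :=
  {lam | min (K x) (K (x + 1)) ≤ lam ∧ lam < K (vtx K x) ∧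
    (crd N K R x : ℝ) * (K (vtx K x) - lam) ≤ 2 * (Fv N g K R x - lam) ∧
    ∀ t, lam < t → t ≤ Fv N g K R x →
      ∃ p q, IsGap N g t p q ∧ p ≤ x ∧ x + 1 ≤ q ∧ q - p + 1 ≤ ρ}

open Classical in
/-- the lowest good level -/
noncomputable def lo (N : ℕ) (g K : ℕ → ℝ) (R : ℕ → ℕ) (ρ x : ℕ) : ℝ :=
  if (good N g K R ρ x).Nonempty then sInf (good N g K R ρ x) else K (vtx K x)

lemma good_bdd {K : ℕ → ℝ} {R : ℕ → ℕ} {ρ x : ℕ} : BddBelow (good N g K R ρ x) :=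
  ⟨min (K x) (K (x + 1)), fun _ h => h.1⟩

lemma lo_le_of_good {K : ℕ → ℝ} {R : ℕ → ℕ} {ρ x : ℕ} (h : lam ∈ good N g K R ρ x) :
    lo N g K R ρ x ≤ lam := by
  unfold lo
  rw [if_pos ⟨lam, h⟩]
  exact csInf_le good_bdd h

lemma lo_le {K : ℕ → ℝ} {R : ℕ → ℕ} {ρ x : ℕ} : lo N g K R ρ x ≤ K (vtx K x) := by
  unfold lo
  split_ifs with h
  · obtain ⟨l, hl⟩ := h
    exact (csInf_le good_bdd hl).trans hl.2.1.le
  · exact le_rfl

/-- the measure of the gaps over the edge `x` of size at most `ρ` -/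
noncomputable def gsum (N : ℕ) (g : ℕ → ℝ) (ρ x : ℕ) : ℝ :=
  ∑ z ∈ (pairs N).filter (fun z => z.1 ≤ x ∧ x + 1 ≤ z.2 ∧ z.2 - z.1 + 1 ≤ ρ), mu g z.1 z.2

lemma gsum_nonneg (N : ℕ) (g : ℕ → ℝ) (ρ x : ℕ) : 0 ≤ gsum N g ρ x :=
  sum_nonneg fun _ _ => mu_nonneg _ _ _

/-- **(B')** -/
lemma crd_mul_le {K : ℕ → ℝ} {R : ℕ → ℕ} {ρ x : ℕ} :
    (crd N K R x : ℝ) * (K (vtx K x) - lo N g K R ρ x) ≤ 2 * gsum N g ρ x := by
  by_cases hne : (good N g K R ρ x).Nonempty
  · have hlo : lo N g K R ρ x = sInf (good N g K R ρ x) := by unfold lo; rw [if_pos hne]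
    have h1 : (crd N K R x : ℝ) * (K (vtx K x) - lo N g K R ρ x) ≤
        2 * (Fv N g K R x - lo N g K R ρ x) := by
      have hcl : IsClosed {l : ℝ | (crd N K R x : ℝ) * (K (vtx K x) - l) ≤
          2 * (Fv N g K R x - l)} :=
        isClosed_le (by fun_prop) (by fun_prop)
      have hsub : good N g K R ρ x ⊆ {l : ℝ | (crd N K R x : ℝ) * (K (vtx K x) - l) ≤
          2 * (Fv N g K R x - l)} := fun l hl => hl.2.2.1
      have := closure_minimal hsub hcl (csInf_mem_closure hne good_bdd)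
      rw [hlo]
      exact this
    have h2 : 0 ≤ (crd N K R x : ℝ) * (K (vtx K x) - lo N g K R ρ x) :=
      mul_nonneg (by positivity) (sub_nonneg.mpr lo_le)
    have h3 : Fv N g K R x - lo N g K R ρ x ≤ gsum N g ρ x := by
      refine le_sum_mu (by linarith) ?_
      intro t ht ht'
      rw [hlo] at ht
      obtain ⟨l, hl, hlt⟩ := exists_lt_of_csInf_lt hne ht
      exact hl.2.2.2 t hlt ht'
    linarith
  · have hlo : lo N g K R ρ x = K (vtx K x) := by unfold lo; rw [if_neg hne]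
    rw [hlo, sub_self, mul_zero]
    exact mul_nonneg zero_le_two (gsum_nonneg _ _ _ _)

/-- a down edge at the level `lam` -/
def IsDown (N : ℕ) (g : ℕ → ℝ) (lam : ℝ) (v : ℕ) : Prop := v < N ∧ g (v + 1) ≤ lam ∧ lam < g v

/-- the down edge is attached -/
def Att (g M : ℕ → ℝ) (lam : ℝ) (v : ℕ) : Prop :=
  ∃ t ≤ v, (∀ i, t ≤ i → i ≤ v → lam < M i) ∧ lam < g t

/-- the last site with a large value -/
lemma exists_last (g : ℕ → ℝ) (lam : ℝ) (v : ℕ) (h : ∃ t ≤ v, lam < g t) :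
    ∃ t ≤ v, lam < g t ∧ ∀ i, t < i → i ≤ v → g i ≤ lam := by
  classical
  obtain ⟨t0, ht0, hg0⟩ := h
  have h1 : lam < g (Nat.findGreatest (fun t => lam < g t) v) :=
    Nat.findGreatest_spec (P := fun t => lam < g t) ht0 hg0
  refine ⟨Nat.findGreatest (fun t => lam < g t) v, Nat.findGreatest_le v, h1, ?_⟩
  intro i hi hiv
  by_contra hcon
  exact Nat.findGreatest_is_greatest hi hiv (not_le.mp hcon)

/-- the number of attached down edges of `M` is at most the number of down edges of `g` -/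
lemma card_att_le (h : IsMax N g M) (S T : Finset ℕ)
    (hS : ∀ v ∈ S, IsDown N M lam v ∧ Att g M lam v)
    (hT : ∀ v, IsDown N g lam v → v ∈ T) : S.card ≤ T.card := by
  classical
  have hex : ∀ v, ∃ t, v ∈ S → t ≤ v ∧ lam < g t ∧ ∀ i, t < i → i ≤ v → g i ≤ lam := by
    intro v
    by_cases hv : v ∈ S
    · obtain ⟨t, h1, _, h3⟩ := (hS v hv).2
      obtain ⟨t', h4, h5, h6⟩ := exists_last g lam v ⟨t, h1, h3⟩
      exact ⟨t', fun _ => ⟨h4, h5, h6⟩⟩
    · exact ⟨0, fun h => absurd h hv⟩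
  choose τ hτ using hex
  have hrun : ∀ v ∈ S, ∀ i, τ v ≤ i → i ≤ v → lam < M i := by
    intro v hv i hi hi'
    obtain ⟨t, h1, h2, h3⟩ := (hS v hv).2
    have h4 : t ≤ τ v := by
      by_contra hcon
      have := (hτ v hv).2.2 t (by omega) h1
      linarith
    exact h2 i (by omega) hi'
  refine card_le_card_of_injOn τ ?_ ?_
  · intro v hv
    have hv' : v ∈ S := hv
    obtain ⟨⟨h1, h2, h3⟩, _⟩ := hS v hv'
    obtain ⟨h4, h5, h6⟩ := hτ v hv'
    refine hT _ ⟨by omega, ?_, h5⟩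
    rcases Nat.eq_or_lt_of_le h4 with h7 | h7
    · rw [h7]
      exact (IsMax.g_le h (by omega)).trans h2
    · exact h6 _ (by omega) (by omega)
  · have key : ∀ v ∈ S, ∀ v' ∈ S, τ v = τ v' → ¬ v < v' := by
      intro v hv v' hv' heq hlt
      have h1 := hrun v' hv' (v + 1) (by have := (hτ v hv).1; omega) (by omega)
      have h2 := (hS v hv).1.2.1
      linarith
    intro v hv v' hv' heq
    have h1 := key v hv v' hv' heq
    have h2 := key v' hv' v hv heq.symm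
    omega

end Pool.Agent.Helper46_PathVar
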