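import Pool.Agent.Helper46_PathVar.Count

/-!
# The down variation of the maximal function is at most three times the down variation
-/

set_option autoImplicit false

open Finset

namespace Pool.Agent.Helper46_PathVar

open Pool.Agent.Helper51_Max

variable {N : ℕ} {g M : ℕ → ℝ} {lam : ℝ} {a b : ℕ}

/-- the charge of the edge `x` for the cap `ρ` at the level `lam` -/
noncomputable def charge (C : Caps N g) (lam : ℝ) (ρ x : ℕ) : ℝ :=
  (Set.Ico (lo N g (C.K ρ) (C.R ρ) ρ x) (C.K ρ (vtx (C.K ρ) x))).indicator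
    (fun _ => wt N ρ * (crd N (C.K ρ) (C.R ρ) x : ℝ)) lam

lemma charge_nonneg (C : Caps N g) (lam : ℝ) (ρ x : ℕ) : 0 ≤ charge C lam ρ x :=
  Set.indicator_nonneg (fun _ _ => mul_nonneg (wt_nonneg _ _) (by positivity)) _

/-- the detached down edges are paid by the charges -/
lemma card_det_le (h : IsMax N g M) (C : Caps N g) (D : Finset ℕ)
    (hD : ∀ v ∈ D, IsDown N M lam v ∧ ¬ Att g M lam v) :
    (D.card : ℝ) ≤ ∑ ρ ∈ Icc 1 (N + 1), ∑ x ∈ range N, charge C lam ρ x := by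
  classical
  have hex : ∀ v, ∃ a m, ∃ x : ℕ → ℕ, v ∈ D → (IsRun N g M lam a v ∧ 1 ≤ m ∧ m ≤ N + 1 ∧
      ∀ ρ, m ≤ ρ → x ρ < N ∧ a ≤ vtx (C.K ρ) (x ρ) ∧ vtx (C.K ρ) (x ρ) ≤ v ∧
        m ≤ crd N (C.K ρ) (C.R ρ) (x ρ) ∧ lam ∈ good N g (C.K ρ) (C.R ρ) ρ (x ρ)) := by
    intro v
    by_cases hv : v ∈ D
    · obtain ⟨⟨h1, h2, h3⟩, h4⟩ := hD v hv
      have hdet : ∀ t ≤ v, (∀ i, t ≤ i → i ≤ v → lam < M i) → g t ≤ lam := by
        intro t ht hall
        by_contra hcon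
        exact h4 ⟨t, ht, hall, not_le.mp hcon⟩
      obtain ⟨a, hrun⟩ := exists_run h (by omega) h2 h3 hdet
      obtain ⟨m, hm1, hm2, hm3, hm4⟩ := hrun.exists_min h
      have hsel : ∀ ρ, ∃ x, m ≤ ρ → x < N ∧ a ≤ vtx (C.K ρ) x ∧ vtx (C.K ρ) x ≤ v ∧
          m ≤ crd N (C.K ρ) (C.R ρ) x ∧ lam ∈ good N g (C.K ρ) (C.R ρ) ρ x := by
        intro ρ
        by_cases hρ : m ≤ ρ
        · obtain ⟨x, hx1, hx2, hx3, hx4, hx5, hx6, hx7, hx8⟩ :=
            hrun.select h (C.cap ρ (by omega)) hm3 hm4 hρ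
          exact ⟨x, fun _ => ⟨hx1, hx2, hx3, hx4, hx5, hx6, hx7, hx8⟩⟩
        · exact ⟨0, fun h => absurd h hρ⟩
      choose x hx using hsel
      exact ⟨a, m, x, fun _ => ⟨hrun, hm1, hm2, hx⟩⟩
    · exact ⟨0, 0, fun _ => 0, fun h => absurd h hv⟩
  choose A m x hx using hex
  -- the weights sum to one
  have h1 : ∀ v ∈ D, (1 : ℝ) ≤ ∑ ρ ∈ Icc 1 (N + 1),
      if m v ≤ ρ then wt N ρ * (crd N (C.K ρ) (C.R ρ) (x v ρ) : ℝ) else 0 := by
    intro v hv
    obtain ⟨hrun, hm1, hm2, hsel⟩ := hx v hv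
    have h2 := sum_wt N (m v) hm1 hm2
    have hmpos : (0 : ℝ) < m v := by exact_mod_cast hm1
    have h3 : (1 : ℝ) = ∑ ρ ∈ Icc (m v) (N + 1), wt N ρ * (m v : ℝ) := by
      rw [← sum_mul, h2]; field_simp
    rw [h3, ← sum_filter]
    have h4 : (Icc 1 (N + 1)).filter (fun ρ => m v ≤ ρ) = Icc (m v) (N + 1) := by
      ext ρ; simp only [mem_filter, mem_Icc]; omega
    rw [h4]
    refine sum_le_sum fun ρ hρ => ?_
    rw [mem_Icc] at hρ
    obtain ⟨_, _, _, h5, _⟩ := hsel ρ hρ.1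
    exact mul_le_mul_of_nonneg_left (by exact_mod_cast h5) (wt_nonneg _ _)
  calc (D.card : ℝ) = ∑ _v ∈ D, (1 : ℝ) := by simp
    _ ≤ ∑ v ∈ D, ∑ ρ ∈ Icc 1 (N + 1),
        (if m v ≤ ρ then wt N ρ * (crd N (C.K ρ) (C.R ρ) (x v ρ) : ℝ) else 0) :=
      sum_le_sum h1
    _ = ∑ ρ ∈ Icc 1 (N + 1), ∑ v ∈ D,
        (if m v ≤ ρ then wt N ρ * (crd N (C.K ρ) (C.R ρ) (x v ρ) : ℝ) else 0) := sum_comm
    _ ≤ ∑ ρ ∈ Icc 1 (N + 1), ∑ x ∈ range N, charge C lam ρ x := ?_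
  refine sum_le_sum fun ρ hρ => ?_
  rw [← sum_filter]
  set Dρ := D.filter (fun v => m v ≤ ρ) with hDρ
  have hinj : Set.InjOn (fun v => x v ρ) (Dρ : Set ℕ) := by
    have key : ∀ v ∈ Dρ, ∀ v' ∈ Dρ, x v ρ = x v' ρ → ¬ v < v' := by
      intro v hv v' hv' heq hlt
      rw [hDρ, mem_filter] at hv hv'
      obtain ⟨_, _, _, hsel⟩ := hx v hv.1
      obtain ⟨hrun', _, _, hsel'⟩ := hx v' hv'.1
      obtain ⟨_, _, h5, _⟩ := hsel ρ hv.2
      obtain ⟨_, h6, _⟩ := hsel' ρ hv'.2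
      rw [heq] at h5
      have h7 := hrun'.high (v + 1) (by omega) (by omega)
      have h8 := (hD v hv.1).1.2.1
      linarith
    intro v hv v' hv' heq
    have h2 := key v hv v' hv' heq
    have h3 := key v' hv' v hv heq.symm
    omega
  rw [← sum_image (f := fun y => wt N ρ * (crd N (C.K ρ) (C.R ρ) y : ℝ)) hinj]
  calc ∑ y ∈ Dρ.image (fun v => x v ρ), wt N ρ * (crd N (C.K ρ) (C.R ρ) y : ℝ)
      = ∑ y ∈ Dρ.image (fun v => x v ρ), charge C lam ρ y := by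
        refine sum_congr rfl fun y hy => ?_
        rw [mem_image] at hy
        obtain ⟨v, hv, rfl⟩ := hy
        rw [hDρ, mem_filter] at hv
        obtain ⟨_, _, _, hsel⟩ := hx v hv.1
        obtain ⟨_, _, _, _, h6⟩ := hsel ρ hv.2
        unfold charge
        rw [Set.indicator_of_mem]
        exact ⟨lo_le_of_good h6, h6.2.1⟩
    _ ≤ ∑ y ∈ range N, charge C lam ρ y := by
        refine sum_le_sum_of_subset_of_nonneg ?_ fun y _ _ => charge_nonneg C lam ρ y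
        intro y hy
        rw [mem_image] at hy
        obtain ⟨v, hv, rfl⟩ := hy
        rw [hDρ, mem_filter] at hv
        obtain ⟨_, _, _, hsel⟩ := hx v hv.1
        exact mem_range.mpr (hsel ρ hv.2).1

/-- **(A)** -/
lemma down_count (h : IsMax N g M) (C : Caps N g) (lam : ℝ) :
    ∑ v ∈ range N, (Set.Ico (min (M (v + 1)) (M v)) (M v)).indicator (fun _ => (1 : ℝ)) lam ≤
      ∑ v ∈ range N, (Set.Ico (min (g (v + 1)) (g v)) (g v)).indicator (fun _ => (1 : ℝ)) lam +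
      ∑ z ∈ (Icc 1 (N + 1)) ×ˢ (range N), charge C lam z.1 z.2 := by
  classical
  have hind : ∀ G : ℕ → ℝ,
      ∑ v ∈ range N, (Set.Ico (min (G (v + 1)) (G v)) (G v)).indicator (fun _ => (1 : ℝ)) lam =
        (((range N).filter (fun v => IsDown N G lam v)).card : ℝ) := by
    intro G
    rw [card_eq_sum_ones, Nat.cast_sum, sum_filter]
    refine sum_congr rfl fun v hv => ?_
    rw [mem_range] at hv
    by_cases hd : IsDown N G lam v
    · rw [if_pos hd, Set.indicator_of_mem]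
      · simp
      · exact ⟨(min_le_left _ _).trans hd.2.1, hd.2.2⟩
    · rw [if_neg hd, Set.indicator_of_notMem]
      rintro ⟨h1, h2⟩
      refine hd ⟨hv, ?_, h2⟩
      rcases min_le_iff.mp h1 with h3 | h3
      · exact h3
      · linarith
  rw [hind M, hind g, sum_product]
  set S := (range N).filter (fun v => IsDown N M lam v) with hS
  have hsplit : S.card = (S.filter (fun v => Att g M lam v)).card +
      (S.filter (fun v => ¬ Att g M lam v)).card := by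
    exact (card_filter_add_card_filter_not (s := S) (fun v => Att g M lam v)).symm
  have h1 : (S.filter (fun v => Att g M lam v)).card ≤
      ((range N).filter (fun v => IsDown N g lam v)).card := by
    refine card_att_le (lam := lam) h _ _ ?_ ?_
    · intro v hv
      rw [mem_filter, hS, mem_filter] at hv
      exact ⟨hv.1.2, hv.2⟩
    · intro v hv
      rw [mem_filter, mem_range]
      exact ⟨hv.1, hv⟩
  have h2 := card_det_le h C (S.filter (fun v => ¬ Att g M lam v)) (lam := lam) (by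
    intro v hv
    rw [mem_filter, hS, mem_filter] at hv
    exact ⟨hv.1.2, hv.2⟩)
  have h3 : (S.card : ℝ) = ((S.filter (fun v => Att g M lam v)).card : ℝ) +
      ((S.filter (fun v => ¬ Att g M lam v)).card : ℝ) := by
    rw [hsplit]; push_cast; ring
  have h4 : ((S.filter (fun v => Att g M lam v)).card : ℝ) ≤
      (((range N).filter (fun v => IsDown N g lam v)).card : ℝ) := by exact_mod_cast h1
  linarith

/-- the sum of the weights over the gaps -/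
lemma sum_gsum_le (N : ℕ) (g : ℕ → ℝ) :
    ∑ ρ ∈ Icc 1 (N + 1), ∑ x ∈ range N, wt N ρ * gsum N g ρ x ≤
      ((N : ℝ) / (N + 1)) * dvar N g := by
  classical
  have h1 : ∀ ρ x, wt N ρ * gsum N g ρ x = ∑ z ∈ pairs N,
      if z.1 ≤ x ∧ x + 1 ≤ z.2 ∧ z.2 - z.1 + 1 ≤ ρ then wt N ρ * mu g z.1 z.2 else 0 := by
    intro ρ x
    unfold gsum
    rw [mul_sum, sum_filter]
  simp only [h1]
  have h2 : ∑ ρ ∈ Icc 1 (N + 1), ∑ x ∈ range N, ∑ z ∈ pairs N,
      (if z.1 ≤ x ∧ x + 1 ≤ z.2 ∧ z.2 - z.1 + 1 ≤ ρ then wt N ρ * mu g z.1 z.2 else 0) =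
      ∑ z ∈ pairs N, ∑ ρ ∈ Icc 1 (N + 1), ∑ x ∈ range N,
      (if z.1 ≤ x ∧ x + 1 ≤ z.2 ∧ z.2 - z.1 + 1 ≤ ρ then wt N ρ * mu g z.1 z.2 else 0) := by
    rw [sum_comm]
    have : ∀ x ∈ range N, ∑ ρ ∈ Icc 1 (N + 1), ∑ z ∈ pairs N,
      (if z.1 ≤ x ∧ x + 1 ≤ z.2 ∧ z.2 - z.1 + 1 ≤ ρ then wt N ρ * mu g z.1 z.2 else 0) =
      ∑ z ∈ pairs N, ∑ ρ ∈ Icc 1 (N + 1),
      (if z.1 ≤ x ∧ x + 1 ≤ z.2 ∧ z.2 - z.1 + 1 ≤ ρ then wt N ρ * mu g z.1 z.2 else 0) :=
      fun x _ => sum_comm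
    rw [sum_congr rfl this, sum_comm]
    exact sum_congr rfl fun z _ => sum_comm
  rw [h2]
  have hN : (0 : ℝ) ≤ (N : ℝ) / (N + 1) := by positivity
  refine le_trans ?_ (mul_le_mul_of_nonneg_left (sum_mu_le N g) hN)
  rw [mul_sum]
  refine sum_le_sum fun z hz => ?_
  rw [mem_pairs] at hz
  have hmu := mu_nonneg g z.1 z.2
  have h3 : ∀ ρ ∈ Icc 1 (N + 1), ∑ x ∈ range N,
      (if z.1 ≤ x ∧ x + 1 ≤ z.2 ∧ z.2 - z.1 + 1 ≤ ρ then wt N ρ * mu g z.1 z.2 else 0) =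
      if z.2 - z.1 + 1 ≤ ρ then ((z.2 - z.1 : ℕ) : ℝ) * (wt N ρ * mu g z.1 z.2) else 0 := by
    intro ρ _
    by_cases hρ : z.2 - z.1 + 1 ≤ ρ
    · rw [if_pos hρ]
      have h4 : ∀ x ∈ range N, (if z.1 ≤ x ∧ x + 1 ≤ z.2 ∧ z.2 - z.1 + 1 ≤ ρ then
          wt N ρ * mu g z.1 z.2 else 0) = if x ∈ Ico z.1 z.2 then wt N ρ * mu g z.1 z.2 else 0 := by
        intro x _
        have : (z.1 ≤ x ∧ x + 1 ≤ z.2 ∧ z.2 - z.1 + 1 ≤ ρ) ↔ x ∈ Ico z.1 z.2 := by
          rw [mem_Ico]; omega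
        simp only [this]
      rw [sum_congr rfl h4, ← sum_filter, sum_const, nsmul_eq_mul]
      have h5 : (range N).filter (fun x => x ∈ Ico z.1 z.2) = Ico z.1 z.2 := by
        ext x; simp only [mem_filter, mem_range, mem_Ico]; omega
      rw [h5, Nat.card_Ico]
    · rw [if_neg hρ]
      refine sum_eq_zero fun x _ => ?_
      rw [if_neg (fun h => hρ h.2.2)]
  rw [sum_congr rfl h3, ← sum_filter]
  have h4 : (Icc 1 (N + 1)).filter (fun ρ => z.2 - z.1 + 1 ≤ ρ) =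
      Icc (z.2 - z.1 + 1) (N + 1) := by
    ext ρ; simp only [mem_filter, mem_Icc]; omega
  rw [h4, ← mul_sum, ← sum_mul, sum_wt N _ (by omega) (by omega)]
  have h5 : ((z.2 - z.1 : ℕ) : ℝ) * (1 / ((z.2 - z.1 + 1 : ℕ) : ℝ) * mu g z.1 z.2) =
      (((z.2 - z.1 : ℕ) : ℝ) / (((z.2 - z.1 : ℕ) : ℝ) + 1)) * mu g z.1 z.2 := by
    push_cast; ring
  rw [h5]
  have h6 : ((z.2 - z.1 : ℕ) : ℝ) / (((z.2 - z.1 : ℕ) : ℝ) + 1) ≤ (N : ℝ) / (N + 1) := by
    rw [div_le_div_iff₀ (by positivity) (by positivity)]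
    have h7 : ((z.2 - z.1 : ℕ) : ℝ) ≤ N := by exact_mod_cast (by omega : z.2 - z.1 ≤ N)
    nlinarith
  exact mul_le_mul_of_nonneg_right h6 hmu

/-- **The down variation of the maximal function.** -/
theorem dvar_le (h : IsMax N g M) : dvar N M ≤ (1 + 2 * ((N : ℝ) / (N + 1))) * dvar N g := by
  classical
  obtain ⟨C⟩ := exists_caps N g
  have h1 := layer_ico2 (range N) (range N) ((Icc 1 (N + 1)) ×ˢ (range N))
    (fun _ => 1) (fun v => min (M (v + 1)) (M v)) (fun v => M v)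
    (fun _ => 1) (fun v => min (g (v + 1)) (g v)) (fun v => g v)
    (fun z => wt N z.1 * (crd N (C.K z.1) (C.R z.1) z.2 : ℝ))
    (fun z => lo N g (C.K z.1) (C.R z.1) z.1 z.2) (fun z => C.K z.1 (vtx (C.K z.1) z.2))
    (fun v _ => min_le_right _ _) (fun v _ => min_le_right _ _) (fun z _ => lo_le)
    (fun t => down_count h C t)
  have h2 : ∑ z ∈ (Icc 1 (N + 1)) ×ˢ (range N), wt N z.1 *
      (crd N (C.K z.1) (C.R z.1) z.2 : ℝ) *
        (C.K z.1 (vtx (C.K z.1) z.2) - lo N g (C.K z.1) (C.R z.1) z.1 z.2) ≤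
      2 * (((N : ℝ) / (N + 1)) * dvar N g) := by
    calc _ ≤ ∑ z ∈ (Icc 1 (N + 1)) ×ˢ (range N), 2 * (wt N z.1 * gsum N g z.1 z.2) := by
          refine sum_le_sum fun z _ => ?_
          have h3 := crd_mul_le (N := N) (g := g) (K := C.K z.1) (R := C.R z.1) (ρ := z.1)
            (x := z.2)
          have h4 := mul_le_mul_of_nonneg_left h3 (wt_nonneg N z.1)
          rw [mul_assoc]
          linarith
      _ = 2 * ∑ ρ ∈ Icc 1 (N + 1), ∑ x ∈ range N, wt N ρ * gsum N g ρ x := by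
          rw [← mul_sum, sum_product]
      _ ≤ 2 * (((N : ℝ) / (N + 1)) * dvar N g) :=
          mul_le_mul_of_nonneg_left (sum_gsum_le N g) zero_le_two
  have h3 : ∑ v ∈ range N, (1 : ℝ) * (M v - min (M (v + 1)) (M v)) = dvar N M := by
    simp [dvar]
  have h4 : ∑ v ∈ range N, (1 : ℝ) * (g v - min (g (v + 1)) (g v)) = dvar N g := by
    simp [dvar]
  rw [h3, h4] at h1
  linarith

end Pool.Agent.Helper46_PathVar
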