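import Mathlib

/-!
# Layer cake comparison for finite families of intervals
-/

set_option autoImplicit false

open MeasureTheory Set Finset

namespace Pool.Agent.Helper46_PathVar

lemma integral_ico (a b : ℝ) (hab : a ≤ b) (c : ℝ) :
    ∫ t, (Set.Ico a b).indicator (fun _ => c) t = c * (b - a) := by
  rw [integral_indicator measurableSet_Ico, setIntegral_const, Measure.real, Real.volume_Ico,
    ENNReal.toReal_ofReal (by linarith), smul_eq_mul, mul_comm]

lemma integrable_ico (a b c : ℝ) :
    Integrable (fun t => (Set.Ico a b).indicator (fun _ => c) t) := by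
  rw [integrable_indicator_iff measurableSet_Ico]
  exact integrableOn_const (by simp) (by simp)

lemma integral_ioc (a b : ℝ) (hab : a ≤ b) (c : ℝ) :
    ∫ t, (Set.Ioc a b).indicator (fun _ => c) t = c * (b - a) := by
  rw [integral_indicator measurableSet_Ioc, setIntegral_const, Measure.real, Real.volume_Ioc,
    ENNReal.toReal_ofReal (by linarith), smul_eq_mul, mul_comm]

lemma integrable_ioc (a b c : ℝ) :
    Integrable (fun t => (Set.Ioc a b).indicator (fun _ => c) t) := by
  rw [integrable_indicator_iff measurableSet_Ioc]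
  exact integrableOn_const (by simp) (by simp)

/-- Comparison of weighted families of intervals `[a, b)`. -/
theorem layer_ico {ι κ : Type*} (s : Finset ι) (u : Finset κ) (α a b : ι → ℝ) (β c d : κ → ℝ)
    (hab : ∀ i ∈ s, a i ≤ b i) (hcd : ∀ j ∈ u, c j ≤ d j)
    (h : ∀ t : ℝ, ∑ i ∈ s, (Set.Ico (a i) (b i)).indicator (fun _ => α i) t ≤
      ∑ j ∈ u, (Set.Ico (c j) (d j)).indicator (fun _ => β j) t) :
    ∑ i ∈ s, α i * (b i - a i) ≤ ∑ j ∈ u, β j * (d j - c j) := by
  have h1 : ∫ t, ∑ i ∈ s, (Set.Ico (a i) (b i)).indicator (fun _ => α i) t =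
      ∑ i ∈ s, α i * (b i - a i) := by
    rw [integral_finsetSum _ fun i _ => integrable_ico _ _ _]
    exact Finset.sum_congr rfl fun i hi => integral_ico _ _ (hab i hi) _
  have h2 : ∫ t, ∑ j ∈ u, (Set.Ico (c j) (d j)).indicator (fun _ => β j) t =
      ∑ j ∈ u, β j * (d j - c j) := by
    rw [integral_finsetSum _ fun i _ => integrable_ico _ _ _]
    exact Finset.sum_congr rfl fun i hi => integral_ico _ _ (hcd i hi) _
  rw [← h1, ← h2]
  exact integral_mono (integrable_finsetSum _ fun i _ => integrable_ico _ _ _)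
    (integrable_finsetSum _ fun i _ => integrable_ico _ _ _) h

/-- Comparison of weighted families of intervals `(a, b]`. -/
theorem layer_ioc {ι κ : Type*} (s : Finset ι) (u : Finset κ) (α a b : ι → ℝ) (β c d : κ → ℝ)
    (hab : ∀ i ∈ s, a i ≤ b i) (hcd : ∀ j ∈ u, c j ≤ d j)
    (h : ∀ t : ℝ, ∑ i ∈ s, (Set.Ioc (a i) (b i)).indicator (fun _ => α i) t ≤
      ∑ j ∈ u, (Set.Ioc (c j) (d j)).indicator (fun _ => β j) t) :
    ∑ i ∈ s, α i * (b i - a i) ≤ ∑ j ∈ u, β j * (d j - c j) := by
  have h1 : ∫ t, ∑ i ∈ s, (Set.Ioc (a i) (b i)).indicator (fun _ => α i) t =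
      ∑ i ∈ s, α i * (b i - a i) := by
    rw [integral_finsetSum _ fun i _ => integrable_ioc _ _ _]
    exact Finset.sum_congr rfl fun i hi => integral_ioc _ _ (hab i hi) _
  have h2 : ∫ t, ∑ j ∈ u, (Set.Ioc (c j) (d j)).indicator (fun _ => β j) t =
      ∑ j ∈ u, β j * (d j - c j) := by
    rw [integral_finsetSum _ fun i _ => integrable_ioc _ _ _]
    exact Finset.sum_congr rfl fun i hi => integral_ioc _ _ (hcd i hi) _
  rw [← h1, ← h2]
  exact integral_mono (integrable_finsetSum _ fun i _ => integrable_ioc _ _ _)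
    (integrable_finsetSum _ fun i _ => integrable_ioc _ _ _) h

end Pool.Agent.Helper46_PathVar

namespace Pool.Agent.Helper46_PathVar

open MeasureTheory Set Finset

/-- Comparison of a weighted family of intervals `[a, b)` with two others. -/
theorem layer_ico2 {ι κ κ' : Type*} (s : Finset ι) (u : Finset κ) (w : Finset κ')
    (α a b : ι → ℝ) (β c d : κ → ℝ) (γ e f : κ' → ℝ)
    (hab : ∀ i ∈ s, a i ≤ b i) (hcd : ∀ j ∈ u, c j ≤ d j) (hef : ∀ j ∈ w, e j ≤ f j)
    (h : ∀ t : ℝ, ∑ i ∈ s, (Set.Ico (a i) (b i)).indicator (fun _ => α i) t ≤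
      ∑ j ∈ u, (Set.Ico (c j) (d j)).indicator (fun _ => β j) t +
      ∑ j ∈ w, (Set.Ico (e j) (f j)).indicator (fun _ => γ j) t) :
    ∑ i ∈ s, α i * (b i - a i) ≤ ∑ j ∈ u, β j * (d j - c j) + ∑ j ∈ w, γ j * (f j - e j) := by
  have h1 := layer_ico s (u.disjSum w) α a b (Sum.elim β γ) (Sum.elim c e) (Sum.elim d f) hab
    (by
      intro j hj
      rcases j with j | j
      · exact hcd j (by simpa using hj)
      · exact hef j (by simpa using hj))
    (by
      intro t
      rw [Finset.sum_disjSum]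
      exact h t)
  rw [Finset.sum_disjSum] at h1
  exact h1

end Pool.Agent.Helper46_PathVar
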