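import Pool.Agent.Helper46_PathVar.Select
import Pool.Agent.Helper46_PathVar.Layer

/-!
# The measure of the levels at which `(p, q)` is a gap
-/

set_option autoImplicit false

open Finset

namespace Pool.Agent.Helper46_PathVar

open Pool.Agent.Helper51_Max

variable {N : ℕ} {g M K : ℕ → ℝ} {R : ℕ → ℕ} {ρ : ℕ} {lam : ℝ} {a b : ℕ}

/-- smaller boundary value -/
noncomputable def mn (g : ℕ → ℝ) (p q : ℕ) : ℝ := min (g p) (g q)

open Classical in
/-- largest inner value, cut off at the smaller boundary value -/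
noncomputable def mx (g : ℕ → ℝ) (p q : ℕ) : ℝ :=
  if h : (Ioo p q).Nonempty then min ((Ioo p q).sup' h g) (mn g p q) else mn g p q

lemma mx_le (g : ℕ → ℝ) (p q : ℕ) : mx g p q ≤ mn g p q := by
  unfold mx
  split_ifs
  · exact min_le_right _ _
  · exact le_rfl

/-- the measure of the set of levels at which `(p, q)` is a gap -/
noncomputable def mu (g : ℕ → ℝ) (p q : ℕ) : ℝ := mn g p q - mx g p q

lemma mu_nonneg (g : ℕ → ℝ) (p q : ℕ) : 0 ≤ mu g p q := sub_nonneg.mpr (mx_le g p q)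

lemma gap_iff {t : ℝ} {p q : ℕ} (hpq : p + 2 ≤ q) (hq : q ≤ N) :
    IsGap N g t p q ↔ t ∈ Set.Ioc (mx g p q) (mn g p q) := by
  have hne : (Ioo p q).Nonempty := ⟨p + 1, by rw [mem_Ioo]; omega⟩
  unfold mx
  rw [dif_pos hne, Set.mem_Ioc, min_lt_iff]
  constructor
  · intro h
    refine ⟨Or.inl ?_, le_min h.left h.right⟩
    rw [sup'_lt_iff]
    intro i hi
    rw [mem_Ioo] at hi
    exact h.inside i hi.1 hi.2
  · rintro ⟨h1, h2⟩
    have h3 : (Ioo p q).sup' hne g < t := by
      rcases h1 with h1 | h1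
      · exact h1
      · exact absurd h2 (not_le.mpr h1)
    rw [sup'_lt_iff] at h3
    exact ⟨hpq, hq, h2.trans (min_le_left _ _), h2.trans (min_le_right _ _),
      fun i hi hi' => h3 i (mem_Ioo.mpr ⟨hi, hi'⟩)⟩

/-- all pairs `p + 2 ≤ q ≤ N` -/
def pairs (N : ℕ) : Finset (ℕ × ℕ) :=
  ((range (N + 1)) ×ˢ (range (N + 1))).filter (fun z => z.1 + 2 ≤ z.2)

lemma mem_pairs {z : ℕ × ℕ} : z ∈ pairs N ↔ z.1 + 2 ≤ z.2 ∧ z.2 ≤ N := by
  simp only [pairs, mem_filter, mem_product, mem_range]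
  omega

/-- the down variation -/
noncomputable def dvar (N : ℕ) (g : ℕ → ℝ) : ℝ := ∑ v ∈ range N, (g v - min (g (v + 1)) (g v))

/-- **(C)** The total measure of gaps is at most the down variation. -/
theorem sum_mu_le (N : ℕ) (g : ℕ → ℝ) : ∑ z ∈ pairs N, mu g z.1 z.2 ≤ dvar N g := by
  classical
  have h := layer_ioc (pairs N) (range N) (fun _ => 1) (fun z => mx g z.1 z.2)
    (fun z => mn g z.1 z.2) (fun _ => 1) (fun v => min (g (v + 1)) (g v)) (fun v => g v)
    (fun z _ => mx_le g _ _) (fun v _ => min_le_right _ _) ?_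
  · simpa [mu, dvar] using h
  · intro t
    simp only [Set.indicator_apply, Finset.sum_ite, Finset.sum_const_zero, add_zero,
      Finset.sum_const, nsmul_eq_mul, mul_one]
    norm_cast
    refine card_le_card_of_injOn (fun z => z.1) ?_ ?_
    · intro z hz
      rw [Finset.mem_coe, mem_filter, mem_pairs] at hz
      have hgap := (gap_iff (N := N) hz.1.1 hz.1.2).mpr hz.2
      have hz1 := hz.1
      rw [Finset.mem_coe, mem_filter, mem_range, Set.mem_Ioc]
      show z.1 < N ∧ min (g (z.1 + 1)) (g z.1) < t ∧ t ≤ g z.1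
      refine ⟨by omega, ?_, hgap.left⟩
      exact lt_of_le_of_lt (min_le_left _ _) (hgap.inside _ (by omega) (by omega))
    · intro z hz z' hz' heq
      rw [Finset.mem_coe, mem_filter, mem_pairs] at hz hz'
      have hgap := (gap_iff (N := N) hz.1.1 hz.1.2).mpr hz.2
      have hgap' := (gap_iff (N := N) hz'.1.1 hz'.1.2).mpr hz'.2
      simp only at heq
      have h2 : z.2 = z'.2 := by
        rcases lt_trichotomy z.2 z'.2 with h3 | h3 | h3
        · have := hgap'.inside z.2 (by have := hz.1; omega) h3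
          exact absurd hgap.right (not_le.mpr this)
        · exact h3
        · have := hgap.inside z'.2 (by have := hz'.1; omega) h3
          exact absurd hgap'.right (not_le.mpr this)
      exact Prod.ext heq h2

/-- **(B)** An interval of levels all of whose members have a gap over the edge `x` of size at
most `ρ`. -/
theorem le_sum_mu {x : ℕ} {lo F : ℝ} (hlo : lo ≤ F)
    (h : ∀ t, lo < t → t ≤ F → ∃ p q, IsGap N g t p q ∧ p ≤ x ∧ x + 1 ≤ q ∧ q - p + 1 ≤ ρ) :
    F - lo ≤ ∑ z ∈ (pairs N).filter (fun z => z.1 ≤ x ∧ x + 1 ≤ z.2 ∧ z.2 - z.1 + 1 ≤ ρ),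
      mu g z.1 z.2 := by
  classical
  have h1 := layer_ioc (Finset.univ : Finset Unit)
    ((pairs N).filter (fun z => z.1 ≤ x ∧ x + 1 ≤ z.2 ∧ z.2 - z.1 + 1 ≤ ρ))
    (fun _ => 1) (fun _ => lo) (fun _ => F) (fun _ => 1) (fun z => mx g z.1 z.2)
    (fun z => mn g z.1 z.2) (fun _ _ => hlo) (fun z _ => mx_le g _ _) ?_
  · simpa [mu] using h1
  · intro t
    rw [Fintype.sum_unique]
    by_cases ht : t ∈ Set.Ioc lo F
    · rw [Set.indicator_of_mem ht]
      obtain ⟨p, q, hgap, h2, h3, h4⟩ := h t ht.1 ht.2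
      have hmem : (p, q) ∈ (pairs N).filter
          (fun z => z.1 ≤ x ∧ x + 1 ≤ z.2 ∧ z.2 - z.1 + 1 ≤ ρ) := by
        rw [mem_filter, mem_pairs]
        exact ⟨⟨hgap.lt, hgap.le⟩, h2, h3, h4⟩
      have h5 := single_le_sum (f := fun z : ℕ × ℕ =>
        (Set.Ioc (mx g z.1 z.2) (mn g z.1 z.2)).indicator (fun _ => (1 : ℝ)) t)
        (fun z _ => Set.indicator_nonneg (fun _ _ => zero_le_one) _) hmem
      have h6 := (gap_iff hgap.lt hgap.le).mp hgap
      rw [Set.indicator_of_mem h6] at h5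
      exact h5
    · rw [Set.indicator_of_notMem ht]
      exact sum_nonneg fun z _ => Set.indicator_nonneg (fun _ _ => zero_le_one) _

end Pool.Agent.Helper46_PathVar
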