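import Pool.Agent.Helper46_PathVar.Cap

/-!
# Detached runs of the level sets of the maximal function
-/

set_option autoImplicit false

open Finset

namespace Pool.Agent.Helper46_PathVar

open Pool.Agent.Helper51_Max

variable {N : ℕ} {g M K : ℕ → ℝ} {R : ℕ → ℕ} {ρ : ℕ} {lam : ℝ} {a b : ℕ}

/-- `[a, b]` is a run of `{M > lam}` on which `g ≤ lam` and which does not touch the ends. -/
structure IsRun (N : ℕ) (g M : ℕ → ℝ) (lam : ℝ) (a b : ℕ) : Prop where
  ab : a ≤ b
  a_pos : 1 ≤ a
  b_lt : b + 1 ≤ N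
  left : M (a - 1) ≤ lam
  right : M (b + 1) ≤ lam
  high : ∀ i, a ≤ i → i ≤ b → lam < M i
  low : ∀ i, a ≤ i → i ≤ b → g i ≤ lam

lemma sum_le_of_low {A : Finset ℕ} (hA : ∀ i ∈ A, g i ≤ lam) :
    ∑ i ∈ A, g i ≤ lam * (A.card : ℝ) := by
  calc ∑ i ∈ A, g i ≤ ∑ _i ∈ A, lam := sum_le_sum hA
    _ = lam * (A.card : ℝ) := by rw [sum_const, nsmul_eq_mul, mul_comm]

lemma sum_le_of_split {A B : Finset ℕ} (hBA : B ⊆ A) (h1 : ∀ i ∈ A \ B, g i ≤ lam)
    (h2 : ∑ i ∈ B, g i ≤ lam * (B.card : ℝ)) : ∑ i ∈ A, g i ≤ lam * (A.card : ℝ) := by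
  have h3 : ∑ i ∈ A \ B, g i + ∑ i ∈ B, g i = ∑ i ∈ A, g i := sum_sdiff hBA
  have h4 : (A \ B).card + B.card = A.card := by
    rw [card_sdiff_add_card, union_eq_left.mpr hBA]
  have h5 : ((A \ B).card : ℝ) + B.card = A.card := by exact_mod_cast h4
  have h6 := sum_le_of_low (g := g) h1
  have h7 : lam * (A.card : ℝ) = lam * ((A \ B).card : ℝ) + lam * (B.card : ℝ) := by
    rw [← h5]; ring
  linarith

lemma moveR (h : IsMax N g M) {u r : ℕ} (hub : u ≤ b) (hbN : b + 1 ≤ N) (hr : b + 1 ≤ u + r)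
    (hlow : ∀ i, u - r ≤ i → i ≤ b → g i ≤ lam) (hM : M (b + 1) ≤ lam) :
    ∑ i ∈ I N u r, g i ≤ lam * ((I N u r).card : ℝ) := by
  have hsub : I N (b + 1) (u + r - (b + 1)) ⊆ I N u r := by
    intro i; simp only [I, mem_Icc]; omega
  refine sum_le_of_split hsub ?_ ?_
  · intro i hi
    simp only [I, mem_sdiff, mem_Icc, not_and_or, not_le] at hi
    exact hlow i (by omega) (by omega)
  · exact (h.le (b + 1) hbN _).trans (mul_le_mul_of_nonneg_right hM (by positivity))

lemma moveL (h : IsMax N g M) {u r : ℕ} (hau : a ≤ u) (ha : 1 ≤ a) (huN : u ≤ N)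
    (hr : u < a + r) (hlow : ∀ i, a ≤ i → i ≤ min (u + r) N → g i ≤ lam)
    (hM : M (a - 1) ≤ lam) :
    ∑ i ∈ I N u r, g i ≤ lam * ((I N u r).card : ℝ) := by
  have hsub : I N (a - 1) (r + (a - 1) - u) ⊆ I N u r := by
    intro i; simp only [I, mem_Icc]; omega
  refine sum_le_of_split hsub ?_ ?_
  · intro i hi
    simp only [I, mem_sdiff, mem_Icc, not_and_or, not_le] at hi
    exact hlow i (by omega) (by omega)
  · exact (h.le (a - 1) (by omega) _).trans (mul_le_mul_of_nonneg_right hM (by positivity))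

/-- A ball centred in a detached run with mean larger than `lam` contains the neighbours of the
run. -/
lemma IsRun.contains (h : IsMax N g M) (hrun : IsRun N g M lam a b) {u r : ℕ} (hau : a ≤ u)
    (hub : u ≤ b) (hbig : lam * ((I N u r).card : ℝ) < ∑ i ∈ I N u r, g i) :
    u < a + r ∧ b + 1 ≤ u + r := by
  have hbN := hrun.b_lt
  have ha := hrun.a_pos
  by_contra hcon
  rw [not_and_or, not_lt, not_le] at hcon
  rcases Nat.lt_or_ge u (a + r) with h1 | h1
  · -- the ball reaches `a - 1` but not `b + 1`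
    have h2 : u + r < b + 1 := by omega
    have := moveL h hau ha (by omega) h1 (fun i hi hi' => hrun.low i hi (by omega)) hrun.left
    linarith
  · rcases Nat.lt_or_ge (u + r) (b + 1) with h2 | h2
    · have : ∑ i ∈ I N u r, g i ≤ lam * ((I N u r).card : ℝ) := by
        apply sum_le_of_low
        intro i hi
        simp only [I, mem_Icc] at hi
        exact hrun.low i (by omega) (by omega)
      linarith
    · have := moveR h hub hbN h2 (fun i hi hi' => hrun.low i (by omega) hi') hrun.right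
      linarith

/-- leftmost point of a run -/
lemma run_left (P : ℕ → Prop) : ∀ (d u : ℕ), d ≤ u → P u →
    (∃ a, u ≤ a + d ∧ a ≤ u ∧ 1 ≤ a ∧ ¬ P (a - 1) ∧ ∀ i, a ≤ i → i ≤ u → P i) ∨
      (∀ i, u ≤ i + d → i ≤ u → P i) := by
  intro d
  induction d with
  | zero =>
    intro u _ hu
    right
    intro i h1 h2
    have : i = u := by omega
    rwa [this]
  | succ d ih =>
    intro u hd hu
    rcases ih u (by omega) hu with ⟨a, h1, h2, h3, h4, h5⟩ | h
    · left; exact ⟨a, by omega, h2, h3, h4, h5⟩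
    · by_cases h6 : P (u - (d + 1))
      · right
        intro i h1 h2
        rcases Nat.lt_or_ge (i + d) u with h7 | h7
        · have : i = u - (d + 1) := by omega
          rwa [this]
        · exact h i h7 h2
      · left
        refine ⟨u - d, by omega, by omega, by omega, ?_, fun i h1 h2 => h i (by omega) h2⟩
        have : u - d - 1 = u - (d + 1) := by omega
        rwa [this]

/-- leftmost point of a run bounded on the left -/
lemma run_left' (P : ℕ → Prop) {a u : ℕ} (hau : a ≤ u) (ha : 1 ≤ a) (hP : P u)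
    (hna : ¬ P (a - 1)) :
    ∃ a', a ≤ a' ∧ a' ≤ u ∧ ¬ P (a' - 1) ∧ ∀ i, a' ≤ i → i ≤ u → P i := by
  rcases run_left P (u - (a - 1)) u (by omega) hP with ⟨a', h1, h2, h3, h4, h5⟩ | h
  · refine ⟨a', ?_, h2, h4, h5⟩
    by_contra hcon
    have : a' = a - 1 := by omega
    exact hna (this ▸ h5 a' le_rfl h2)
  · exact absurd (h (a - 1) (by omega) (by omega)) hna

/-- rightmost point of a run bounded on the right -/
lemma run_right (P : ℕ → Prop) (d : ℕ) : ∀ u, P u → ¬ P (u + d) →
    ∃ b', u ≤ b' ∧ b' + 1 ≤ u + d ∧ ¬ P (b' + 1) ∧ ∀ i, u ≤ i → i ≤ b' → P i := by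
  induction d with
  | zero => intro u hu hn; exact absurd hu hn
  | succ d ih =>
    intro u hu hn
    by_cases h : P (u + 1)
    · obtain ⟨b', h1, h2, h3, h4⟩ := ih (u + 1) h (by
        have : u + 1 + d = u + (d + 1) := by omega
        rwa [this])
      refine ⟨b', by omega, by omega, h3, fun i hi hi' => ?_⟩
      rcases Nat.eq_or_lt_of_le hi with h5 | h5
      · rwa [← h5]
      · exact h4 i h5 hi'
    · refine ⟨u, le_rfl, by omega, h, fun i hi hi' => ?_⟩
      have : i = u := by omega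
      rwa [this]

/-- A down edge of `M` at the level `lam` whose run contains no point with `g > lam` is the right
end of a detached run. -/
lemma exists_run (h : IsMax N g M) (hb : b + 1 ≤ N) (h1 : M (b + 1) ≤ lam) (h2 : lam < M b)
    (hdet : ∀ t ≤ b, (∀ i, t ≤ i → i ≤ b → lam < M i) → g t ≤ lam) :
    ∃ a, IsRun N g M lam a b := by
  rcases run_left (fun i => lam < M i) b b le_rfl h2 with ⟨a, _, h4, h5, h6, h7⟩ | hall
  · refine ⟨a, h4, h5, hb, not_lt.mp h6, h1, h7, fun i hi hi' => ?_⟩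
    exact hdet i hi' fun j hj hj' => h7 j (by omega) hj'
  · exfalso
    obtain ⟨r, hr⟩ := h.attained b (by omega)
    have hpos : (0 : ℝ) < (I N b r).card := by exact_mod_cast card_I_pos r (by omega)
    have hlow : ∀ i, i ≤ b → g i ≤ lam := fun i hi =>
      hdet i hi fun j _ hj' => hall j (by omega) hj'
    have h3 : ∑ i ∈ I N b r, g i ≤ lam * ((I N b r).card : ℝ) := by
      rcases Nat.eq_zero_or_pos r with h0 | h0
      · subst h0
        apply sum_le_of_low
        intro i hi
        simp only [I, mem_Icc] at hi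
        exact hlow i (by omega)
      · exact moveR h le_rfl hb (by omega) (fun i _ hi' => hlow i hi') h1
    rw [← hr] at h3
    have := lt_of_mul_lt_mul_right (lt_of_le_of_lt h3 (mul_lt_mul_of_pos_right h2 hpos)) hpos.le
    linarith

/-- the smallest cardinality of a ball centred in the run with mean larger than `lam` -/
lemma IsRun.exists_min (h : IsMax N g M) (hrun : IsRun N g M lam a b) :
    ∃ m, 1 ≤ m ∧ m ≤ N + 1 ∧ (∃ u r, a ≤ u ∧ u ≤ b ∧ (I N u r).card = m ∧
      lam * ((I N u r).card : ℝ) < ∑ i ∈ I N u r, g i) ∧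
      ∀ u r, a ≤ u → u ≤ b → lam * ((I N u r).card : ℝ) < ∑ i ∈ I N u r, g i →
        m ≤ (I N u r).card := by
  classical
  have hbN := hrun.b_lt
  let P : ℕ → Prop := fun m => ∃ u r, a ≤ u ∧ u ≤ b ∧ (I N u r).card = m ∧
      lam * ((I N u r).card : ℝ) < ∑ i ∈ I N u r, g i
  have hex : ∃ m, P m := by
    obtain ⟨r, hr⟩ := h.attained b (by omega)
    have hpos : (0 : ℝ) < (I N b r).card := by exact_mod_cast card_I_pos r (by omega)
    refine ⟨_, b, r, hrun.ab, le_rfl, rfl, ?_⟩
    rw [← hr]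
    exact mul_lt_mul_of_pos_right (hrun.high b hrun.ab le_rfl) hpos
  refine ⟨Nat.find hex, ?_, ?_, Nat.find_spec hex, fun u r h1 h2 h3 =>
    Nat.find_min' hex ⟨u, r, h1, h2, rfl, h3⟩⟩
  · obtain ⟨u, r, _, h2, h3, _⟩ := Nat.find_spec hex
    rw [← h3]
    exact card_I_pos r (by omega)
  · obtain ⟨u, r, _, h2, h3, _⟩ := Nat.find_spec hex
    rw [← h3, card_I]
    omega

end Pool.Agent.Helper46_PathVar
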