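import Pool.Agent.Helper46_PathVar.Run

/-!
# Selection of an edge for a detached run and a cap `ρ`
-/

set_option autoImplicit false

open Finset

namespace Pool.Agent.Helper46_PathVar

open Pool.Agent.Helper51_Max

variable {N : ℕ} {g M K : ℕ → ℝ} {R : ℕ → ℕ} {ρ : ℕ} {lam : ℝ} {a b : ℕ}

open Classical in
/-- the vertex of the edge `(x, x + 1)` at which `K` is larger -/
noncomputable def vtx (K : ℕ → ℝ) (x : ℕ) : ℕ := if K (x + 1) < K x then x else x + 1

open Classical in
/-- the sites lost when the optimal ball of that vertex moves over the edge -/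
noncomputable def lostS (N : ℕ) (K : ℕ → ℝ) (R : ℕ → ℕ) (x : ℕ) : Finset ℕ :=
  if K (x + 1) < K x then lostR N x (R x) else lostL N (x + 1) (R (x + 1))

open Classical in
/-- the largest value of `g` at a lost site -/
noncomputable def Fv (N : ℕ) (g K : ℕ → ℝ) (R : ℕ → ℕ) (x : ℕ) : ℝ :=
  if h : (lostS N K R x).Nonempty then (lostS N K R x).sup' h g else 0

/-- the cardinality of the optimal ball -/
noncomputable def crd (N : ℕ) (K : ℕ → ℝ) (R : ℕ → ℕ) (x : ℕ) : ℕ :=
  (I N (vtx K x) (R (vtx K x))).card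

/-- `(p, q)` is a bounded gap of `{g ≥ t}` -/
structure IsGap (N : ℕ) (g : ℕ → ℝ) (t : ℝ) (p q : ℕ) : Prop where
  lt : p + 2 ≤ q
  le : q ≤ N
  left : t ≤ g p
  right : t ≤ g q
  inside : ∀ i, p < i → i < q → g i < t

lemma Fv_spec {x : ℕ} (p : ℕ) (hp : p ∈ lostS N K R x) :
    ∃ p' ∈ lostS N K R x, g p' = Fv N g K R x ∧ g p ≤ Fv N g K R x := by
  classical
  have hne : (lostS N K R x).Nonempty := ⟨p, hp⟩
  obtain ⟨p', hp', h1⟩ := exists_mem_eq_sup' hne g
  refine ⟨p', hp', ?_, ?_⟩
  · unfold Fv; rw [dif_pos hne, h1]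
  · unfold Fv; rw [dif_pos hne]; exact le_sup' g hp

/-- two sites with large values on the two sides of an interval with small values -/
lemma exists_gap {t : ℝ} {p q a' b' : ℕ} (hab : a' ≤ b') (hp : p < a') (hq : b' < q) (hqN : q ≤ N)
    (hgp : t ≤ g p) (hgq : t ≤ g q) (hlow : ∀ i, a' ≤ i → i ≤ b' → g i < t) :
    ∃ p' q', IsGap N g t p' q' ∧ p ≤ p' ∧ p' < a' ∧ b' < q' ∧ q' ≤ q := by
  obtain ⟨a'', h1, h2, h3, h4⟩ := run_left' (fun i => g i < t) (a := p + 1) (u := a') hp
    (by omega) (hlow a' le_rfl hab) (by simpa using hgp)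
  obtain ⟨b'', h5, h6, h7, h8⟩ := run_right (fun i => g i < t) (q - b') b'
    (hlow b' hab le_rfl) (by
      have : b' + (q - b') = q := by omega
      rw [this]; exact not_lt.mpr hgq)
  have h9 : 1 ≤ a'' := by omega
  refine ⟨a'' - 1, b'' + 1, ⟨by omega, by omega, not_lt.mp h3, not_lt.mp h7, ?_⟩, by omega,
    by omega, by omega, by omega⟩
  intro i hi hi'
  rcases Nat.lt_or_ge a' i with h10 | h10
  · rcases Nat.lt_or_ge i b' with h11 | h11
    · exact hlow i h10.le h11.le
    · exact h8 i h11 (by omega)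
  · exact h4 i (by omega) h10

/-- **Selection of an edge.** -/
theorem IsRun.select (h : IsMax N g M) (hrun : IsRun N g M lam a b) (hK : IsCap N g ρ K R)
    {m : ℕ} (hm : ∃ u r, a ≤ u ∧ u ≤ b ∧ (I N u r).card = m ∧
      lam * ((I N u r).card : ℝ) < ∑ i ∈ I N u r, g i)
    (hmin : ∀ u r, a ≤ u → u ≤ b → lam * ((I N u r).card : ℝ) < ∑ i ∈ I N u r, g i →
        m ≤ (I N u r).card) (hρ : m ≤ ρ) :
    ∃ x, x < N ∧ a ≤ vtx K x ∧ vtx K x ≤ b ∧ m ≤ crd N K R x ∧ min (K x) (K (x + 1)) ≤ lam ∧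
      lam < K (vtx K x) ∧ (crd N K R x : ℝ) * (K (vtx K x) - lam) ≤ 2 * (Fv N g K R x - lam) ∧
      ∀ t, lam < t → t ≤ Fv N g K R x →
        ∃ p q, IsGap N g t p q ∧ p ≤ x ∧ x + 1 ≤ q ∧ q - p + 1 ≤ ρ := by
  classical
  have hbN := hrun.b_lt
  have ha := hrun.a_pos
  obtain ⟨u, r, hau, hub, hcard, hbig⟩ := hm
  have huN : u ≤ N := by omega
  have hKu : lam < K u := by
    have h1 := hK.le u huN r (by omega)
    have hpos : (0 : ℝ) < (I N u r).card := by exact_mod_cast card_I_pos r huN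
    exact lt_of_mul_lt_mul_right (lt_of_lt_of_le hbig h1) hpos.le
  have hKa : ¬ lam < K (a - 1) := not_lt.mpr ((hK.le_max h (by omega)).trans hrun.left)
  have hKb : ¬ lam < K (b + 1) := not_lt.mpr ((hK.le_max h hbN).trans hrun.right)
  obtain ⟨a', h1, h2, h3, h4⟩ := run_left' (fun i => lam < K i) hau ha hKu hKa
  obtain ⟨b', h5, h6, h7, h8⟩ := run_right (fun i => lam < K i) (b + 1 - u) u hKu (by
    have : u + (b + 1 - u) = b + 1 := by omega
    rw [this]; exact hKb)
  have hb'b : b' ≤ b := by omega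
  have ha'1 : 1 ≤ a' := by omega
  have hb'K : lam < K b' := h8 b' h5 le_rfl
  have ha'K : lam < K a' := h4 a' le_rfl h2
  rw [not_lt] at h3 h7
  have hsub : a' - 1 + 1 = a' := by omega
  -- the two edges
  have hcR : K (b' + 1) < K b' := lt_of_le_of_lt h7 hb'K
  have hcL : ¬ K (a' - 1 + 1) < K (a' - 1) := by rw [hsub]; exact not_lt.mpr (h3.trans ha'K.le)
  have hvR : vtx K b' = b' := by unfold vtx; rw [if_pos hcR]
  have hvL : vtx K (a' - 1) = a' := by unfold vtx; rw [if_neg hcL, hsub]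
  have hlR : lostS N K R b' = lostR N b' (R b') := by unfold lostS; rw [if_pos hcR]
  have hlL : lostS N K R (a' - 1) = lostL N a' (R a') := by
    unfold lostS; rw [if_neg hcL, hsub]
  -- cardinalities
  have hposR : (0 : ℝ) < (I N b' (R b')).card := by exact_mod_cast card_I_pos _ (by omega)
  have hposL : (0 : ℝ) < (I N a' (R a')).card := by exact_mod_cast card_I_pos _ (by omega)
  have hmR : m ≤ (I N b' (R b')).card := by
    apply hmin _ _ (by omega) hb'b
    rw [← hK.attained b' (by omega)]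
    exact mul_lt_mul_of_pos_right hb'K hposR
  have hmL : m ≤ (I N a' (R a')).card := by
    apply hmin _ _ h1 (by omega)
    rw [← hK.attained a' (by omega)]
    exact mul_lt_mul_of_pos_right ha'K hposL
  -- lost sites
  obtain ⟨pR, hpR, hpR'⟩ := hK.lostR (v := b') (by omega) (hrun.low b' (by omega) hb'b) h7 hb'K
  obtain ⟨pL, hpL, hpL'⟩ := hK.lostL (v := a') ha'1 (by omega) (hrun.low a' h1 (by omega)) h3 ha'K
  rw [← hlR] at hpR
  rw [← hlL] at hpL
  obtain ⟨p, hp, hpF, hpge⟩ := Fv_spec (g := g) pR hpR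
  obtain ⟨q, hq, hqF, hqge⟩ := Fv_spec (g := g) pL hpL
  have hFR : ((I N b' (R b')).card : ℝ) * (K b' - lam) ≤ 2 * (Fv N g K R b' - lam) := by
    linarith
  have hFL : ((I N a' (R a')).card : ℝ) * (K a' - lam) ≤ 2 * (Fv N g K R (a' - 1) - lam) := by
    linarith
  have hFR' : lam < Fv N g K R b' := by
    have := mul_pos hposR (sub_pos.mpr hb'K)
    linarith
  have hFL' : lam < Fv N g K R (a' - 1) := by
    have := mul_pos hposL (sub_pos.mpr ha'K)
    linarith
  -- location of the lost sites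
  have hrR := hK.radius_pos (v := b') (by omega)
    (lt_of_le_of_lt (hrun.low b' (by omega) hb'b) hb'K)
  have hrL := hK.radius_pos (v := a') (by omega)
    (lt_of_le_of_lt (hrun.low a' h1 (by omega)) ha'K)
  have hcardR := hK.card_le b' (by omega)
  have hcardL := hK.card_le a' (by omega)
  rw [card_I] at hcardR hcardL
  rw [hlR] at hp
  rw [hlL] at hq
  have hp2 : p < a := by
    by_contra hcon
    have h9 : p ≤ b := by
      simp only [lostR, I, mem_sdiff, mem_Icc, not_and_or, not_le] at hp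
      omega
    have := hrun.low p (by omega) h9
    linarith
  have hq2 : b < q := by
    by_contra hcon
    have h9 : a ≤ q := by
      simp only [lostL, I, mem_sdiff, mem_Icc, not_and_or, not_le] at hq
      omega
    have := hrun.low q h9 (by omega)
    linarith
  have hqN : q ≤ N := by
    simp only [lostL, I, mem_sdiff, mem_Icc] at hq
    omega
  have hsize : q - p + 1 ≤ ρ := by
    simp only [lostR, I, mem_sdiff, mem_Icc, not_and_or, not_le] at hp
    simp only [lostL, I, mem_sdiff, mem_Icc, not_and_or, not_le] at hq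
    omega
  have hgap : ∀ t, lam < t → t ≤ Fv N g K R b' → t ≤ Fv N g K R (a' - 1) →
      ∃ p' q', IsGap N g t p' q' ∧ p ≤ p' ∧ p' < a' ∧ b' < q' ∧ q' ≤ q := by
    intro t ht ht1 ht2
    refine exists_gap (by omega) (by omega) (by omega) hqN (by rw [hpF]; exact ht1)
      (by rw [hqF]; exact ht2) ?_
    intro i hi hi'
    exact lt_of_le_of_lt (hrun.low i (by omega) (by omega)) ht
  rcases le_total (Fv N g K R b') (Fv N g K R (a' - 1)) with hle | hle
  · refine ⟨b', by omega, by rw [hvR]; omega, by rw [hvR]; exact hb'b, ?_, ?_, ?_, ?_, ?_⟩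
    · unfold crd; rw [hvR]; exact hmR
    · exact (min_le_right _ _).trans h7
    · rw [hvR]; exact hb'K
    · unfold crd; rw [hvR]; exact hFR
    · intro t ht ht1
      obtain ⟨p', q', h9, h10, h11, h12, h13⟩ := hgap t ht ht1 (ht1.trans hle)
      exact ⟨p', q', h9, by omega, by omega, by omega⟩
  · refine ⟨a' - 1, by omega, by rw [hvL]; omega, by rw [hvL]; omega, ?_, ?_, ?_, ?_, ?_⟩
    · unfold crd; rw [hvL]; exact hmL
    · exact (min_le_left _ _).trans h3
    · rw [hvL]; exact ha'K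
    · unfold crd; rw [hvL]; exact hFL
    · intro t ht ht1
      obtain ⟨p', q', h9, h10, h11, h12, h13⟩ := hgap t ht (ht1.trans hle) ht1
      exact ⟨p', q', h9, by omega, by omega, by omega⟩

end Pool.Agent.Helper46_PathVar
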